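import Pool.Agent.Y6.K.Stm
import Pool.Agent.Y248.ND.Bil
import Pool.Agent.Y691.ND.FLDB

/-! Properties of the kernel of the concrete system (project EK of helper6, statement `S_CJ5`). -/

open Set Filter Topology MeasureTheory

set_option autoImplicit false

namespace Pool.Agent.Y919.EK

open Pool.Agent.Y5 Pool.Agent.Y5.D Pool.Agent.Y6.K
open Pool.Agent.Y302.Trunc (Lev am sg rho)
open Pool.Agent.Y248.ND

theorem exists_of_bil_ne {V W Z : Fam} (h : bil V W Z ≠ 0) :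
    ∃ p q, V p ≠ 0 ∧ W q ≠ 0 ∧ Z (p + q) ≠ 0 := by
  by_contra hcon
  push Not at hcon
  apply h
  unfold bil
  have h0 : ∀ q : Z3 × Z3,
      inner ℝ (V q.1) (vec q.2) * inner ℝ (W (q.2 - q.1)) (Z q.2) = (0 : ℝ) := by
    rintro ⟨p, k⟩
    simp only
    by_cases h1 : V p = 0
    · rw [h1, inner_zero_left, zero_mul]
    · by_cases h2 : W (k - p) = 0
      · rw [h2, inner_zero_left, mul_zero]
      · have h3 := hcon p (k - p) h1 h2
        rw [add_sub_cancel] at h3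
        rw [h3, inner_zero_right, mul_zero]
  rw [tsum_congr h0, tsum_zero, mul_zero]

section modes

variable {J : Type} {o : J → ℕ} {σ : J → J} {τ : J → ℝ} {N : Ix J → ℝ} {e : Ix J → Fam}

theorem exists_ne (hM : Modes o σ N e) (a : Ix J) : ∃ k, e a k ≠ 0 := by
  by_contra hcon
  push Not at hcon
  have h1 := (hM.orth a a).1 rfl
  unfold pair at h1
  simp [hcon] at h1

theorem sum_sq (hM : Modes o σ N e) (a : Ix J) (s : Finset Z3) :
    ∑ k ∈ s, ‖e a k‖ ^ 2 ≤ 1 ^ 2 := by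
  have h1 := (hM.orth a a).1 rfl
  unfold pair at h1
  simp_rw [real_inner_self_eq_norm_sq] at h1
  rw [one_pow, ← h1]
  refine Summable.sum_le_tsum s (fun _ _ => sq_nonneg _) ?_
  refine summable_of_ne_finset_zero (s := (hM.few a).1.toFinset) ?_
  intro k hk
  have h2 : e a k = 0 := by simpa using hk
  simp [h2]

theorem norm_le (hM : Modes o σ N e) (a : Ix J) (k : Z3) : ‖e a k‖ ≤ 1 := by
  have h := sum_sq hM a {k}
  rw [Finset.sum_singleton] at h
  exact (abs_le_of_sq_le_sq' h one_pos.le).2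

theorem size (hM : Modes o σ N e) (hN : ∀ i, 1 ≤ N i) (i a b : Ix J) :
    |bil (e a) (e b) (e i)| ≤ (48 * Real.pi) * N i ^ 1 := by
  have h := bil_bound (e a) (e b) (e i) (hM.few a).1.toFinset (hM.few i).1.toFinset
    (by intro k hk; simpa using hk) (by intro k hk; simpa using hk) 1 1 (N i) 24 one_pos.le
    one_pos.le (sum_sq hM a) (sum_sq hM b) ?_ ?_ (by linarith [hN i])
  · refine h.trans (le_of_eq ?_)
    ring
  · intro k hk
    have h1 := hM.supp i k hk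
    have h2 := hN i
    rw [← h1] at h2 ⊢
    nlinarith [norm_nonneg (vec k)]
  · refine (Finset.sum_le_card_nsmul _ _ 1 fun k _ => norm_le hM i k).trans ?_
    rw [← Set.ncard_eq_toFinset_card _ (hM.few i).1]
    have := (hM.few i).2
    simp only [nsmul_eq_mul, mul_one]
    exact_mod_cast this

theorem deg_aux (hM : Modes o σ N e) (i a : Ix J) (s : Set (Ix J))
    (hs : ∀ b ∈ s, ∃ k l, e i k ≠ 0 ∧ e a l ≠ 0 ∧ e b (k - l) ≠ 0) :
    s.Finite ∧ s.ncard ≤ 24 * 24 * 25 := by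
  classical
  set F : Finset (Ix J) := ((hM.few i).1.toFinset ×ˢ (hM.few a).1.toFinset).biUnion
    (fun q => (hM.cnt (q.1 - q.2)).1.toFinset) with hF
  have hsub : s ⊆ (F : Set (Ix J)) := by
    intro b hb
    obtain ⟨k, l, h1, h2, h3⟩ := hs b hb
    rw [hF, Finset.mem_coe, Finset.mem_biUnion]
    exact ⟨(k, l), Finset.mem_product.2 ⟨by simpa using h1, by simpa using h2⟩,
      by simpa using h3⟩
  have hcard : F.card ≤ 24 * 24 * 25 := by
    rw [hF]
    refine (Finset.card_biUnion_le_card_mul _ _ 25 ?_).trans ?_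
    · intro q _
      rw [← Set.ncard_eq_toFinset_card _ (hM.cnt (q.1 - q.2)).1]
      exact (hM.cnt _).2
    · rw [Finset.card_product, ← Set.ncard_eq_toFinset_card _ (hM.few i).1,
        ← Set.ncard_eq_toFinset_card _ (hM.few a).1]
      exact Nat.mul_le_mul_right _ (Nat.mul_le_mul (hM.few i).2 (hM.few a).2)
  refine ⟨F.finite_toSet.subset hsub, ?_⟩
  have := Set.ncard_le_ncard hsub F.finite_toSet
  rw [Set.ncard_coe_finset] at this
  exact this.trans hcard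

theorem deg (hM : Modes o σ N e) (i a : Ix J) :
    ({b | bil (e a) (e b) (e i) ≠ 0}.Finite ∧ {b | bil (e a) (e b) (e i) ≠ 0}.ncard ≤ 14400) ∧
    {b | bil (e b) (e a) (e i) ≠ 0}.Finite ∧ {b | bil (e b) (e a) (e i) ≠ 0}.ncard ≤ 14400 := by
  constructor
  · refine deg_aux hM i a _ ?_
    intro b hb
    obtain ⟨p, q, h1, h2, h3⟩ := exists_of_bil_ne hb
    exact ⟨p + q, p, h3, h1, by rwa [add_sub_cancel_left]⟩
  · refine deg_aux hM i a _ ?_
    intro b hb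
    obtain ⟨p, q, h1, h2, h3⟩ := exists_of_bil_ne hb
    exact ⟨p + q, q, h3, h2, by rwa [add_sub_cancel_right]⟩

theorem finite_vec (R : ℝ) : {k : Z3 | ‖vec k‖ ^ 2 ≤ R}.Finite := by
  refine (Set.finite_Icc (fun _ => -⌈R⌉ - 1 : Z3) (fun _ => ⌈R⌉ + 1 : Z3)).subset ?_
  intro k hk
  have h2 : ∀ i, |k i| ≤ ⌈R⌉ + 1 := by
    intro i
    have h3 := abs_le_vec k i
    have h4 : |(k i : ℝ)| ≤ R + 1 := by
      have h5 : ‖vec k‖ ^ 2 ≤ R := hk
      nlinarith [norm_nonneg (vec k), sq_nonneg (‖vec k‖ - 1)]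
    have h6 : |(k i : ℝ)| ≤ ((⌈R⌉ + 1 : ℤ) : ℝ) := by
      push_cast
      linarith [Int.le_ceil R]
    exact_mod_cast h6
  constructor
  · intro i
    have := (abs_le.1 (h2 i)).1
    simp only
    linarith
  · intro i
    exact (abs_le.1 (h2 i)).2

theorem real_aux {n a b c : ℝ} (hn : 1 ≤ n) (ha : (4 * n)⁻¹ ≤ a) (hb : (4 * n)⁻¹ ≤ b)
    (hc : (4 * n)⁻¹ ≤ c) : (n ^ 3)⁻¹ ≤ 64 * (a * (b * c)) := by
  have hn0 : 0 < n := by linarith
  have h0 : 0 ≤ (4 * n)⁻¹ := by positivity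
  have h1 : (n ^ 3)⁻¹ = 64 * ((4 * n)⁻¹ * ((4 * n)⁻¹ * (4 * n)⁻¹)) := by
    rw [← mul_inv, ← mul_inv]
    have : (64 : ℝ) = ((64 : ℝ)⁻¹)⁻¹ := by norm_num
    rw [this, ← mul_inv]
    congr 1
    ring
  rw [h1]
  refine mul_le_mul_of_nonneg_left ?_ (by norm_num)
  exact mul_le_mul ha (mul_le_mul hb hc h0 (h0.trans hb)) (mul_nonneg h0 h0) (h0.trans ha)

theorem summ_aux {I K : Type} (g : K → ℝ) (hg0 : ∀ l, 0 ≤ g l) (hgs : Summable g)
    (P : K → I → Prop) (hfin : ∀ l, {a | P l a}.Finite ∧ {a | P l a}.ncard ≤ 25) (f : I → ℝ)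
    (hf0 : ∀ i, 0 ≤ f i) (h : ∀ i, ∃ l, P l i ∧ f i ≤ g l) : Summable f := by
  choose k hk hle using h
  refine Summable.of_nonneg_of_le hf0 hle ?_
  have hsig : Summable (fun x : (Σ l : K, {a | P l a}) => g x.1) := by
    rw [summable_sigma_of_nonneg (fun x => hg0 _)]
    refine ⟨fun l => ?_, ?_⟩
    · have := (hfin l).1.to_subtype
      exact Summable.of_finite
    · refine Summable.of_nonneg_of_le (fun l => tsum_nonneg fun _ => hg0 _) (fun l => ?_)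
        (hgs.mul_left 25)
      have := (hfin l).1.to_subtype
      have h1 : ∑' y : {a | P l a}, g ((⟨l, y⟩ : (Σ l : K, {a | P l a})).1) =
          ∑' _ : {a | P l a}, g l := rfl
      rw [h1, tsum_const, nsmul_eq_mul, Nat.card_coe_set_eq]
      refine mul_le_mul_of_nonneg_right ?_ (hg0 l)
      exact_mod_cast (hfin l).2
  have hinj : Function.Injective
      (fun i : I => (⟨k i, ⟨i, hk i⟩⟩ : Σ l : K, {a | P l a})) := by
    intro i j hij
    exact congrArg (fun x : (Σ l : K, {a | P l a}) => (x.2 : I)) hij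
  exact hsig.comp_injective hinj

theorem summ (hM : Modes o σ N e) (hN : ∀ i, 1 ≤ N i) : Summable (fun i => (N i ^ 3)⁻¹) := by
  refine summ_aux (fun l : Z3 => 64 * ((1 + |(l 0 : ℝ)|)⁻¹ ^ 2 * ((1 + |(l 1 : ℝ)|)⁻¹ ^ 2 *
    (1 + |(l 2 : ℝ)|)⁻¹ ^ 2))) (fun l => by positivity)
    (Pool.Agent.Y691.ND.F.sum_three.mul_left 64) (fun l a => e a l ≠ 0) hM.cnt _
    (fun i => by have := hN i; positivity) ?_
  intro i
  obtain ⟨l, hl⟩ := exists_ne hM i
  refine ⟨l, hl, ?_⟩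
  have h1 := hM.supp i l hl
  have h2 := hN i
  have hv : 1 ≤ ‖vec l‖ := by
    rw [← h1] at h2
    nlinarith [norm_nonneg (vec l)]
  have h6 : ∀ p, (4 * N i)⁻¹ ≤ (1 + |(l p : ℝ)|)⁻¹ ^ 2 := by
    intro p
    have h4 := abs_le_vec l p
    have h5 := abs_nonneg (l p : ℝ)
    have h3 : (1 + |(l p : ℝ)|) ^ 2 ≤ 4 * N i := by
      rw [← h1]
      nlinarith
    rw [inv_pow]
    exact inv_anti₀ (by positivity) h3
  exact real_aux h2 (h6 0) (h6 1) (h6 2)

end modes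

theorem n_le (n : ℕ) : (n : ℝ) ≤ 8 * (64 : ℝ) ^ (n / 4) := by
  have h1 : n / 4 < 64 ^ (n / 4) := Nat.lt_pow_self (by norm_num)
  have h2 : n ≤ 8 * 64 ^ (n / 4) := by omega
  exact_mod_cast h2

theorem vec_zero' : vec (0 : Z3) = 0 := by
  ext i; simp [vec]

theorem ym_supp {n : ℕ} {k : Z3} (h : Ym n k ≠ 0) : k = κ n ∨ k = -κ n := by
  by_contra hcon
  push Not at hcon
  apply h
  unfold Ym
  rw [if_neg hcon.1, if_neg hcon.2]

section sys

variable {J : Type} {o : J → ℕ} {σ : J → J} {τ : J → ℝ} {N : Ix J → ℝ} {e : Ix J → Fam}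

theorem k_ne (hS : Sys o σ τ N e) {a : Ix J} {k : Z3} (hk : e a k ≠ 0) : k ≠ 0 := by
  rintro rfl
  have h1 := hS.modes.supp a 0 hk
  have h2 := hS.one a
  rw [← h1, vec_zero'] at h2
  simp at h2
  linarith

theorem lev_main (h1 : S_CJ1) (hS : Sys o σ τ N e) {n : ℕ} {k : Z3}
    (hk : e (Sum.inl n) k ≠ 0) : k ∈ Lev 1 n := by
  by_contra hcon
  apply hk
  rw [hS.main n]
  exact ((h1.2.2.2.2.2.2 n).2.2.2.2.2 k hcon).1

theorem kind_idle (hS : Sys o σ τ N e) {j : J} (hj : τ j = 0) : e (Sum.inr j) = Ym (o j) := by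
  rcases hS.kind j with ⟨h, -⟩ | ⟨-, h⟩
  · rw [hj] at h
    norm_num at h
  · exact h

theorem kind_rot (hS : Sys o σ τ N e) {j : J} (hj : τ j ≠ 0) :
    (o j : ℝ) = 32768 * N (Sum.inr j) := by
  rcases hS.kind j with ⟨-, h⟩ | ⟨h, -⟩
  · exact h
  · exact absurd h hj

theorem lev_idle (h1 : S_CJ1) (hS : Sys o σ τ N e) {j : J} (hj : τ j = 0) {k : Z3}
    (hk : e (Sum.inr j) k ≠ 0) : k ∈ Lev 1 (o j) := by
  by_contra hcon
  apply hk
  rw [kind_idle hS hj]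
  exact ((h1.2.2.2.2.2.2 (o j)).2.2.2.2.2 k hcon).2

theorem N_inl (h1 : S_CJ1) (hS : Sys o σ τ N e) (n : ℕ) :
    N (Sum.inl n) = (rho 1 n : ℝ) := by
  obtain ⟨k, hk⟩ := exists_ne hS.modes (Sum.inl n)
  rw [← hS.modes.supp _ k hk]
  exact (h1.1 n k).1 (lev_main h1 hS hk)

theorem N_idle (h1 : S_CJ1) (hS : Sys o σ τ N e) {j : J} (hj : τ j = 0) :
    N (Sum.inr j) = (rho 1 (o j) : ℝ) := by
  obtain ⟨k, hk⟩ := exists_ne hS.modes (Sum.inr j)
  rw [← hS.modes.supp _ k hk]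
  exact (h1.1 _ k).1 (lev_idle h1 hS hj hk)

/-- bound of the squared length by the level -/
theorem N_le (h1 : S_CJ1) (hS : Sys o σ τ N e) (j : J) :
    N (Sum.inr j) ≤ 208 * (64 : ℝ) ^ (o j) := by
  by_cases hj : τ j = 0
  · rw [N_idle h1 hS hj]
    refine (h1.2.2.2.1 (o j)).2.trans ?_
    refine mul_le_mul_of_nonneg_left ?_ (by norm_num)
    exact pow_le_pow_right₀ (by norm_num) (Nat.div_le_self _ _)
  · have h2 := kind_rot hS hj
    have h3 : ((o j : ℕ) : ℝ) ≤ (64 : ℝ) ^ (o j) := by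
      exact_mod_cast (Nat.lt_pow_self (by norm_num : 1 < 64)).le
    linarith

theorem fin_lev (h1 : S_CJ1) (hS : Sys o σ τ N e) (m : ℕ) : {j | o j ≤ m}.Finite := by
  have hF := finite_vec (208 * (64 : ℝ) ^ m)
  have hU : (⋃ k ∈ {k : Z3 | ‖vec k‖ ^ 2 ≤ 208 * (64 : ℝ) ^ m}, {a | e a k ≠ 0}).Finite :=
    hF.biUnion fun k _ => (hS.modes.cnt k).1
  refine Set.Finite.subset (hU.preimage (f := (Sum.inr : J → Ix J))
    (Sum.inr_injective.injOn)) ?_
  intro j hj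
  have hj' : o j ≤ m := hj
  obtain ⟨k, hk⟩ := exists_ne hS.modes (Sum.inr j)
  refine Set.mem_preimage.2 (Set.mem_iUnion₂.2 ⟨k, ?_, hk⟩)
  have h2 := N_le h1 hS j
  rw [← hS.modes.supp _ k hk] at h2
  refine h2.trans ?_
  exact mul_le_mul_of_nonneg_left (pow_le_pow_right₀ (by norm_num) hj') (by norm_num)

theorem rot_of_levels (h1 : S_CJ1) (hS : Sys o σ τ N e) {j : J} (hj : τ j ≠ 0) {k u v : Z3}
    (hk : e (Sum.inr j) k ≠ 0) {n m : ℕ} (hu : u ∈ Lev 1 n) (hv : v ∈ Lev 1 m)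
    (h : k = u + v) : n ≤ o j := by
  have h2 := h1.2.2.1 n m u hu v hv (h ▸ k_ne hS hk)
  rw [← h, hS.modes.supp _ k hk] at h2
  have h3 := kind_rot hS hj
  have h4 := n_le n
  have h5 : (n : ℝ) ≤ o j := by rw [h3]; linarith
  exact_mod_cast h5

theorem norms {p q : Z3} : ‖vec (p + q)‖ ^ 2 ≤ 4 * ‖vec p‖ ^ 2 ∨
    ‖vec (p + q)‖ ^ 2 ≤ 4 * ‖vec q‖ ^ 2 := by
  rw [vec_add]
  have h := norm_add_le (vec p) (vec q)
  have h1 := norm_nonneg (vec p)
  have h2 := norm_nonneg (vec q)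
  have h3 := norm_nonneg (vec p + vec q)
  rcases le_total ‖vec p‖ ‖vec q‖ with h4 | h4
  · right; nlinarith
  · left; nlinarith

theorem big (h1 : S_CJ1) (hS : Sys o σ τ N e) {j : J} {n : ℕ}
    (h : (rho 1 n : ℝ) ≤ 4 * N (Sum.inr j)) : n ≤ o j + 1 ∧ (τ j ≠ 0 → n ≤ o j) := by
  have hr : τ j ≠ 0 → n ≤ o j := by
    intro hj
    have h2 := kind_rot hS hj
    have h3 := (h1.2.2.2.1 n).1
    have h4 := n_le n
    have h5 : (n : ℝ) ≤ o j := by
      rw [h2]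
      linarith [hS.one (Sum.inr j)]
    exact_mod_cast h5
  refine ⟨?_, hr⟩
  by_cases hj : τ j = 0
  · rw [N_idle h1 hS hj] at h
    exact h1.2.2.2.2.1 n (o j) h
  · exact (hr hj).trans (Nat.le_succ _)

theorem neg_lev (h1 : S_CJ1) {n : ℕ} {k : Z3} (hk : k ∈ Lev 1 n) : -k ∈ Lev 1 n :=
  (h1.2.1 n).2.1 k hk

theorem cls {n m j : ℕ} {v w : Z3} (hv : v ∈ Lev 1 n) (hw : w ∈ Lev 1 m)
    (h : v + w ∈ Lev 1 j) :
    (n = m ∧ j = n + 1) ∨ (j = n ∧ m = n + 1) ∨ (j = m ∧ n = m + 1) :=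
  Pool.Agent.Y302.Trunc.classify one_pos hv hw h

theorem other_case (h1 : S_CJ1) (hS : Sys o σ τ N e) {n m : ℕ} {j : J} {p q : Z3}
    (hp : p ∈ Lev 1 m) (hq : e (Sum.inr j) q ≠ 0) (hpq : p + q ∈ Lev 1 n) : n ≤ o j + 1 := by
  by_cases hj : τ j = 0
  · have := cls hp (lev_idle h1 hS hj hq) hpq
    omega
  · exact (rot_of_levels h1 hS hj hq hpq (neg_lev h1 hp) (by abel)).trans (Nat.le_succ _)

theorem sep (h1 : S_CJ1) (hS : Sys o σ τ N e) (n : ℕ) (a b : Ix J)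
    (hc : bil (e a) (e b) (e (Sum.inl n)) ≠ 0) (hab : ∃ j, a = Sum.inr j ∨ b = Sum.inr j) :
    ∃ j, (a = Sum.inr j ∨ b = Sum.inr j) ∧ n ≤ o j + 1 := by
  obtain ⟨p, q, hp, hq, hpq⟩ := exists_of_bil_ne hc
  have hL := lev_main h1 hS hpq
  rcases a with p' | j
  · rcases b with q' | j
    · obtain ⟨j, hj | hj⟩ := hab <;> simp at hj
    · exact ⟨j, Or.inr rfl, other_case h1 hS (lev_main h1 hS hp) hq hL⟩
  · rcases b with q' | j'
    · refine ⟨j, Or.inl rfl, other_case h1 hS (lev_main h1 hS hq) hp ?_⟩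
      rwa [add_comm]
    · have h2 := norms (p := p) (q := q)
      rw [(h1.1 n _).1 hL, hS.modes.supp _ p hp, hS.modes.supp _ q hq] at h2
      rcases h2 with h2 | h2
      · exact ⟨j, Or.inl rfl, (big h1 hS h2).1⟩
      · exact ⟨j', Or.inr rfl, (big h1 hS h2).1⟩

theorem excl (h1 : S_CJ1) {n : ℕ} {p x y : Z3} (hp : p ∈ Lev 1 n)
    (hx : x = κ (n + 1) ∨ x = -κ (n + 1)) (hy : y = κ n ∨ y = -κ n) (h : p = x - y) : False := by
  obtain ⟨-, h2, h3⟩ := h1.2.2.2.2.2.1 n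
  have hn := neg_lev h1 hp
  rcases hx with rfl | rfl <;> rcases hy with rfl | rfl
  · exact h2 (h ▸ hp)
  · apply h3
    rw [h] at hp
    rwa [sub_neg_eq_add] at hp
  · apply h3
    rw [h] at hn
    convert hn using 1
    abel
  · apply h2
    rw [h] at hn
    convert hn using 1
    abel

/-- an element of a level and one of the support of another mode -/
theorem idle_case (h1 : S_CJ1) (hS : Sys o σ τ N e) {W m : ℕ} {j : J} {p q : Z3}
    (hp : p ∈ Lev 1 m) (hq : e (Sum.inr j) q ≠ 0) (hW : p + q = κ W ∨ p + q = -κ W)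
    (hW' : p + q ∈ Lev 1 W) : W ≤ o j := by
  by_cases hj : τ j = 0
  · have h2 := lev_idle h1 hS hj hq
    rcases cls hp h2 hW' with ⟨h3, h4⟩ | ⟨h3, h4⟩ | ⟨h3, h4⟩
    · exfalso
      subst h4
      subst h3
      rw [kind_idle hS hj] at hq
      exact excl h1 hp hW (ym_supp hq) (by abel)
    · omega
    · omega
  · exact rot_of_levels h1 hS hj hq hW' (neg_lev h1 hp) (by abel)

theorem idle (h1 : S_CJ1) (h2 : S_CJ2) (hS : Sys o σ τ N e) (w : J) (hw : τ w = 0) (a b : Ix J)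
    (hc : bil (e a) (e b) (e (Sum.inr w)) ≠ 0) :
    ∃ j, (a = Sum.inr j ∨ b = Sum.inr j) ∧ o w ≤ o j := by
  obtain ⟨p, q, hp, hq, hpq⟩ := exists_of_bil_ne hc
  have hL := lev_idle h1 hS hw hpq
  have hK : p + q = κ (o w) ∨ p + q = -κ (o w) := by
    rw [kind_idle hS hw] at hpq
    exact ym_supp hpq
  rcases a with p' | j
  · rcases b with q' | j
    · exfalso
      apply hc
      rw [hS.main, hS.main, kind_idle hS hw]
      exact h2.2.1 p' q' (o w)
    · exact ⟨j, Or.inr rfl, idle_case h1 hS (lev_main h1 hS hp) hq hK hL⟩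
  · rcases b with q' | j'
    · refine ⟨j, Or.inl rfl, idle_case h1 hS (lev_main h1 hS hq) hp ?_ ?_⟩
      · rwa [add_comm]
      · rwa [add_comm]
    · by_cases hj : τ j = 0
      · exact ⟨j', Or.inr rfl, idle_case h1 hS (lev_idle h1 hS hj hp) hq hK hL⟩
      · by_cases hj' : τ j' = 0
        · refine ⟨j, Or.inl rfl, idle_case h1 hS (lev_idle h1 hS hj' hq) hp ?_ ?_⟩
          · rwa [add_comm]
          · rwa [add_comm]
        · have h2 := norms (p := p) (q := q)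
          rw [(h1.1 _ _).1 hL, hS.modes.supp _ p hp, hS.modes.supp _ q hq] at h2
          rcases h2 with h2 | h2
          · exact ⟨j, Or.inl rfl, (big h1 hS h2).2 hj⟩
          · exact ⟨j', Or.inr rfl, (big h1 hS h2).2 hj'⟩

theorem level_bound (h1 : S_CJ1) {n m : ℕ} {u v : Z3} (hu : u ∈ Lev 1 n) (hv : v ∈ Lev 1 m)
    (h : u + v ≠ 0) {R : ℝ} (hR : ‖vec (u + v)‖ ^ 2 ≤ R) : n ≤ 8 * (4096 * ⌈R⌉₊) := by
  have h2 := h1.2.2.1 n m u hu v hv h
  have h3 := n_le n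
  have h4 : (n : ℝ) ≤ ((8 * (4096 * ⌈R⌉₊) : ℕ) : ℝ) := by
    push_cast
    linarith [Nat.le_ceil R]
  exact_mod_cast h4

theorem mfin (h1 : S_CJ1) (hS : Sys o σ τ N e) (w : J) :
    {p : ℕ × ℕ | bil (e (Sum.inl p.1)) (e (Sum.inl p.2)) (e (Sum.inr w)) ≠ 0}.Finite := by
  set B := 8 * (4096 * ⌈N (Sum.inr w)⌉₊) with hB
  refine ((Set.finite_Iic B).prod (Set.finite_Iic B)).subset ?_
  rintro ⟨p', q'⟩ hc
  obtain ⟨p, q, hp, hq, hpq⟩ := exists_of_bil_ne (show bil (e (Sum.inl p')) (e (Sum.inl q'))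
    (e (Sum.inr w)) ≠ 0 from hc)
  have hp' := lev_main h1 hS hp
  have hq' := lev_main h1 hS hq
  have h3 := k_ne hS hpq
  have h4 := (hS.modes.supp _ _ hpq).le
  refine ⟨level_bound h1 hp' hq' h3 h4, ?_⟩
  rw [add_comm] at h3 h4
  exact level_bound h1 hq' hp' h3 h4

end sys

theorem t_CJ5 : S_CJ5 := by
  intro h1 h2 J o σ τ N e hS
  have hM := hS.modes
  have hone := hS.one
  have hNn := N_inl h1 hS
  have hlast : ∀ n, Ac n ^ 2 ≤ 100 * N (Sum.inl n) := by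
    intro n
    rw [hNn n]
    exact (h2.2.2.2 n).2
  refine ⟨?_, ?_, hlast⟩
  · refine ⟨hS.inv, hS.ogrp, hS.skew, ?_, fin_lev h1 hS, ?_, ?_, ⟨14400, ?_⟩, mfin h1 hS, ?_,
      sep h1 hS, idle h1 h2 hS⟩
    · intro j
      rcases hS.kind j with ⟨h, -⟩ | ⟨h, -⟩
      · exact Or.inr h
      · exact Or.inl h
    · intro i a b
      exact bil_anti _ _ _ (hM.ot a)
    · intro i
      exact ⟨(48 * Real.pi) * N i ^ 1, fun a b => size hM hone i a b⟩
    · intro i a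
      exact deg hM i a
    · intro n p q
      simp only [hS.main]
      exact h2.1 p q n
  · refine ⟨hone, ⟨48 * Real.pi, 1, fun i a b => size hM hone i a b⟩, ⟨3, summ hM hone⟩,
      ⟨100, 2, ?_⟩, ⟨101, 1, ?_⟩, ⟨208, ?_⟩⟩
    · intro n
      rw [hNn n]
      exact (h2.2.2.2 n).1
    · intro n
      have h3 := hlast n
      have h4 := hone (Sum.inl n)
      nlinarith [sq_nonneg (Ac n - 1)]
    · intro j
      refine (N_le h1 hS j).trans ?_
      rw [pow_succ, mul_comm]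
      refine mul_le_mul_of_nonneg_right ?_ (by norm_num)
      exact pow_le_pow_left₀ (by norm_num) (by norm_num) _

end Pool.Agent.Y919.EK
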